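import Mathlib
import Pool.Agent.Y826.ZL.OB6

/-! Project Y826/Z, job OB5: `S_OFF` from `S_OA` with five groups. Splitting of the tuples `u`, sums over
the outer variables. -/

open Finset Filter

namespace Pool.Agent.Y826.ZL.Y814

open Pool.Agent.Y826.Z Pool.Agent.Y826.Z.OB Pool.Agent.Y826.ZL.OB

lemma Pr_rs {K : ℕ} (G : Finset (Fin K)) (u : Fin K → ℕ) : Pr (rs G u) * Pr (rs Gᶜ u) = Pr u := by
  unfold Pr rs
  rw [← Finset.prod_mul_distrib]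
  refine Finset.prod_congr rfl fun j _ => ?_
  by_cases hj : j ∈ G
  · simp [hj]
  · simp [hj]

lemma Pr_mul {K : ℕ} (u v : Fin K → ℕ) : Pr (u * v) = Pr u * Pr v := by
  unfold Pr
  rw [← Finset.prod_mul_distrib]
  rfl

lemma rs_inj {K : ℕ} (G : Finset (Fin K)) (u w : Fin K → ℕ) (h1 : rs G u = rs G w)
    (h2 : rs Gᶜ u = rs Gᶜ w) : u = w := by
  funext j
  by_cases hj : j ∈ G
  · have := congrFun h1 j
    unfold rs at this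
    simpa [hj] using this
  · have := congrFun h2 j
    unfold rs at this
    simpa [hj] using this

lemma Cd_split {K : ℕ} (h : Fin K → ℤ × ℤ) (G : Finset (Fin K)) (u v : Fin K → ℕ) (x : ℕ)
    (hc : (Pr u).Coprime (Pr v)) :
    (Cd h (rs Gᶜ u) x ∧ Cd h (rs G u * v) x) ↔ (Cd h u x ∧ Cd h v x) := by
  have hcj : ∀ j, IsCoprime (u j : ℤ) (v j : ℤ) := by
    intro j
    rw [Nat.isCoprime_iff_coprime]
    exact Nat.Coprime.of_dvd (Finset.dvd_prod_of_mem u (Finset.mem_univ j))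
      (Finset.dvd_prod_of_mem v (Finset.mem_univ j)) hc
  unfold Cd
  rw [← forall_and, ← forall_and]
  refine forall_congr' fun j => ?_
  by_cases hj : j ∈ G
  · have e1 : rs Gᶜ u j = 1 := by unfold rs; simp [hj]
    have e2 : (rs G u * v) j = u j * v j := by
      show rs G u j * v j = u j * v j
      unfold rs
      simp [hj]
    rw [e1, e2]
    push_cast
    constructor
    · rintro ⟨-, h2⟩
      exact ⟨(Dvd.intro _ rfl).trans h2, (Dvd.intro_left _ rfl).trans h2⟩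
    · rintro ⟨h1, h2⟩
      exact ⟨one_dvd _, (hcj j).mul_dvd h1 h2⟩
  · have e1 : rs Gᶜ u j = u j := by unfold rs; simp [hj]
    have e2 : (rs G u * v) j = v j := by
      show rs G u j * v j = v j
      unfold rs
      simp [hj]
    rw [e1, e2]

lemma Du_split {K : ℕ} (h : Fin K → ℤ × ℤ) (G : Finset (Fin K)) (u v : Fin K → ℕ) (x : ℕ)
    (hc : (Pr u).Coprime (Pr v)) : Du h (rs Gᶜ u) (rs G u * v) x = Du h u v x := by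
  have hP : Pr (rs Gᶜ u) * Pr (rs G u * v) = Pr u * Pr v := by
    rw [Pr_mul, ← Pr_rs G u]
    ring
  unfold Du
  rw [hP, propext (Cd_split h G u v x hc)]

/-- sums of greatest common divisors over tuples with two parts -/
lemma gcd_tuple2 {K : ℕ} (G : Finset (Fin K)) (S : Finset (Fin K → ℕ)) (T R Λ : ℝ) (hT0 : 0 ≤ T) (hR0 : 0 ≤ R)
    (hΛ : 0 ≤ Λ) (hT : ∀ x ∈ S, (Pr (rs G x) : ℝ) ≤ T) (hT1 : ∀ x ∈ S, Pr (rs G x) ≠ 0)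
    (hR : ∀ x ∈ S, (Pr (rs Gᶜ x) : ℝ) ≤ R) (h0 : ∀ x ∈ S, Pr (rs Gᶜ x) ≠ 0)
    (hBT : ∀ n : ℕ, n ≠ 0 → (n : ℝ) ≤ T → tau n ^ K ≤ Λ)
    (hB : ∀ n : ℕ, n ≠ 0 → (n : ℝ) ≤ R → tau n ^ K ≤ Λ) (D : ℕ) (hD : D ≠ 0) (hτ : tau D ≤ Λ) :
    ∑ x ∈ S, (Nat.gcd D (Pr (rs Gᶜ x)) : ℝ) ≤ (Λ * T) * (Λ * (Λ * R)) := by
  classical
  have e1 : ∑ x ∈ S, (Nat.gcd D (Pr (rs Gᶜ x)) : ℝ) =
      ∑ p ∈ S.image (fun x => (rs G x, rs Gᶜ x)), (Nat.gcd D (Pr p.2) : ℝ) := by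
    rw [Finset.sum_image]
    intro x _ y _ hxy
    exact rs_inj G x y (Prod.ext_iff.1 hxy).1 (Prod.ext_iff.1 hxy).2
  have e2 : S.image (fun x => (rs G x, rs Gᶜ x)) ⊆ (S.image (rs G)) ×ˢ (S.image (rs Gᶜ)) := by
    intro p hp
    obtain ⟨x, hx, rfl⟩ := Finset.mem_image.1 hp
    rw [Finset.mem_product]
    exact ⟨Finset.mem_image_of_mem _ hx, Finset.mem_image_of_mem _ hx⟩
  have e3 : ∑ p ∈ S.image (fun x => (rs G x, rs Gᶜ x)), (Nat.gcd D (Pr p.2) : ℝ) ≤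
      ∑ p ∈ (S.image (rs G)) ×ˢ (S.image (rs Gᶜ)), (Nat.gcd D (Pr p.2) : ℝ) :=
    Finset.sum_le_sum_of_subset_of_nonneg e2 fun _ _ _ => Nat.cast_nonneg _
  have e4 : ∑ p ∈ (S.image (rs G)) ×ˢ (S.image (rs Gᶜ)), (Nat.gcd D (Pr p.2) : ℝ) =
      ((S.image (rs G)).card : ℝ) * ∑ y ∈ S.image (rs Gᶜ), (Nat.gcd D (Pr y) : ℝ) := by
    rw [Finset.sum_product]
    simp only
    rw [Finset.sum_const, nsmul_eq_mul]
  have c1 : ((S.image (rs G)).card : ℝ) ≤ Λ * T := by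
    refine card_tuple _ T Λ hT0 hΛ ?_ ?_ hBT
    · intro y hy
      obtain ⟨x, hx, rfl⟩ := Finset.mem_image.1 hy
      exact hT x hx
    · intro y hy
      obtain ⟨x, hx, rfl⟩ := Finset.mem_image.1 hy
      exact hT1 x hx
  have c2 : ∑ y ∈ S.image (rs Gᶜ), (Nat.gcd D (Pr y) : ℝ) ≤ Λ * (Λ * R) := by
    refine gcd_tuple _ R Λ hR0 hΛ ?_ ?_ hB D hD hτ
    · intro y hy
      obtain ⟨x, hx, rfl⟩ := Finset.mem_image.1 hy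
      exact hR x hx
    · intro y hy
      obtain ⟨x, hx, rfl⟩ := Finset.mem_image.1 hy
      exact h0 x hx
  rw [e1]
  refine e3.trans ?_
  rw [e4]
  exact mul_le_mul c1 c2 (Finset.sum_nonneg fun _ _ => Nat.cast_nonneg _) (by positivity)

/-- product of three greatest common divisors -/
noncomputable def g3 {K : ℕ} (G : Finset (Fin K)) (D : ℕ)
    (o : (Fin K → ℕ) × (Fin K → ℕ) × (Fin K → ℕ) × (Fin K → ℕ)) : ℝ :=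
  (Nat.gcd D (Pr o.2.1) : ℝ) * ((Nat.gcd D (Pr (rs Gᶜ o.2.2.1)) : ℝ) * (Nat.gcd D (Pr (rs Gᶜ o.2.2.2)) : ℝ))

lemma sum_g3 {K : ℕ} (G : Finset (Fin K)) (SA SB SU : Finset (Fin K → ℕ)) (D : ℕ) :
    ∑ o ∈ OO SA SB SU, g3 G D o = (SA.card : ℝ) * ((∑ r ∈ SB, (Nat.gcd D (Pr r) : ℝ)) *
      ((∑ u ∈ SU, (Nat.gcd D (Pr (rs Gᶜ u)) : ℝ)) * (∑ u ∈ SU, (Nat.gcd D (Pr (rs Gᶜ u)) : ℝ)))) := by
  unfold OO g3
  rw [Finset.sum_product]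
  simp only
  rw [Finset.sum_const, nsmul_eq_mul]
  congr 1
  rw [Finset.sum_product, Finset.sum_mul]
  refine Finset.sum_congr rfl fun r _ => ?_
  simp only
  rw [← Finset.mul_sum, Finset.sum_product, Finset.sum_mul]
  congr 1
  refine Finset.sum_congr rfl fun u _ => ?_
  simp only
  rw [← Finset.mul_sum]

lemma g3_ge_one {K : ℕ} (G : Finset (Fin K)) (D : ℕ) (hD : D ≠ 0)
    (o : (Fin K → ℕ) × (Fin K → ℕ) × (Fin K → ℕ) × (Fin K → ℕ)) : 1 ≤ g3 G D o := by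
  unfold g3
  have h : ∀ n : ℕ, (1 : ℝ) ≤ (Nat.gcd D n : ℝ) := by
    intro n
    have : 0 < Nat.gcd D n := Nat.gcd_pos_of_pos_left _ (Nat.pos_of_ne_zero hD)
    exact_mod_cast this
  have h1 := h (Pr o.2.1)
  have h2 := h (Pr (rs Gᶜ o.2.2.1))
  have h3 := h (Pr (rs Gᶜ o.2.2.2))
  calc (1 : ℝ) = 1 * (1 * 1) := by norm_num
    _ ≤ _ := mul_le_mul h1 (mul_le_mul h2 h3 zero_le_one (by linarith)) (by norm_num) (by linarith)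

/-- the bound of one pair -/
lemma Bd_le (N : ℕ) (Λ RA RB T U V E B : ℝ) (W Pa Pe1 Pe2 Pr' Pu1 Pu2 D : ℕ) (Dz : ℤ) (hD : D = Dz.natAbs)
    (hD0 : D ≠ 0)
    (hΛ : 1 ≤ Λ) (hRA : 0 < RA) (hRB : 0 < RB) (hT : 0 < T) (hU : 0 < U) (hV : 0 < V) (hE : 0 < E)
    (hE4 : E ^ 4 = RB * U ^ 2)
    (hW : (W : ℝ) ≤ Λ) (hPa : (Pa : ℝ) ≤ RA * Λ) (hPe1 : (Pe1 : ℝ) ≤ T * Λ) (hPe2 : (Pe2 : ℝ) ≤ T * Λ)
    (hPr : (Pr' : ℝ) ≤ RB * Λ) (hPr2 : RB / Λ ≤ Pr')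
    (hPu1 : (Pu1 : ℝ) ≤ U * Λ) (hPu12 : U / Λ ≤ Pu1)
    (hPu2 : (Pu2 : ℝ) ≤ U * Λ) (hPu22 : U / Λ ≤ Pu2)
    (hB : B = Real.sqrt (N * (RA * T ^ 2 * V ^ 4)) + Real.sqrt N * E + N / E) :
    Bd N ((W * Pa * Pe1 * Pe2 : ℝ) * (V * Λ) ^ 4) ((Pr' * Pu1 * Pu2 : ℕ) : ℝ)
      (Int.gcd Dz ((Pr' * Pu1 * Pu2 : ℕ) : ℤ)) ≤
      Λ ^ 4 * B * ((Nat.gcd D Pr' : ℝ) * ((Nat.gcd D Pu1 : ℝ) * (Nat.gcd D Pu2 : ℝ))) := by
  have hΛ0 : 0 < Λ := by linarith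
  unfold Bd
  set g : ℝ := (Int.gcd Dz ((Pr' * Pu1 * Pu2 : ℕ) : ℤ) : ℝ) with hg
  set G : ℝ := (Nat.gcd D Pr' : ℝ) * ((Nat.gcd D Pu1 : ℝ) * (Nat.gcd D Pu2 : ℝ)) with hG
  have hgn : (Int.gcd Dz ((Pr' * Pu1 * Pu2 : ℕ) : ℤ)) = Nat.gcd D (Pr' * Pu1 * Pu2) := by
    rw [hD]; rfl
  have hg1 : 1 ≤ g := by
    rw [hg, hgn]
    have : 0 < Nat.gcd D (Pr' * Pu1 * Pu2) := Nat.gcd_pos_of_pos_left _ (Nat.pos_of_ne_zero hD0)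
    exact_mod_cast this
  have hgG : g ≤ G := by
    rw [hg, hgn, hG]
    have h1 : Nat.gcd D (Pr' * Pu1 * Pu2) ≤ Nat.gcd D Pr' * (Nat.gcd D Pu1 * Nat.gcd D Pu2) := by
      have hpos : 0 < Nat.gcd D Pr' * (Nat.gcd D Pu1 * Nat.gcd D Pu2) := by
        have a1 := Nat.gcd_pos_of_pos_left Pr' (Nat.pos_of_ne_zero hD0)
        have a2 := Nat.gcd_pos_of_pos_left Pu1 (Nat.pos_of_ne_zero hD0)
        have a3 := Nat.gcd_pos_of_pos_left Pu2 (Nat.pos_of_ne_zero hD0)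
        positivity
      apply Nat.le_of_dvd hpos
      rw [mul_assoc]
      exact (Nat.gcd_mul_right_dvd_mul_gcd D Pr' (Pu1 * Pu2)).trans
        (Nat.mul_dvd_mul_left _ (Nat.gcd_mul_right_dvd_mul_gcd D Pu1 Pu2))
    exact_mod_cast h1
  have hG1 : 1 ≤ G := hg1.trans hgG
  set d : ℝ := ((Pr' * Pu1 * Pu2 : ℕ) : ℝ) with hd
  have hdle : d ≤ (E * Λ) ^ 4 := by
    rw [hd]
    push_cast
    calc (Pr' : ℝ) * Pu1 * Pu2 ≤ (RB * Λ) * (U * Λ) * (U * Λ) := by gcongr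
      _ = RB * U ^ 2 * Λ ^ 3 := by ring
      _ ≤ RB * U ^ 2 * Λ ^ 4 := by
          apply mul_le_mul_of_nonneg_left (pow_le_pow_right₀ hΛ (by norm_num)) (by positivity)
      _ = (E * Λ) ^ 4 := by rw [← hE4]; ring
  have hdge : (E / Λ) ^ 4 ≤ d := by
    rw [hd]
    push_cast
    calc (E / Λ) ^ 4 = RB * U ^ 2 / Λ ^ 4 := by rw [div_pow, hE4]
      _ ≤ RB * U ^ 2 / Λ ^ 3 := by
          apply div_le_div_of_nonneg_left (by positivity) (by positivity)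
            (pow_le_pow_right₀ hΛ (by norm_num))
      _ = (RB / Λ) * (U / Λ) * (U / Λ) := by field_simp
      _ ≤ (Pr' : ℝ) * Pu1 * Pu2 := by gcongr
  have hdpos : 0 < d := lt_of_lt_of_le (by positivity) hdge
  have hd1 : d ^ (1 / 4 : ℝ) ≤ E * Λ := by
    have : ((E * Λ) ^ 4 : ℝ) ^ (1 / 4 : ℝ) = E * Λ := by
      rw [← Real.rpow_natCast, ← Real.rpow_mul (by positivity)]
      norm_num
    rw [← this]
    exact Real.rpow_le_rpow hdpos.le hdle (by norm_num)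
  have hd2 : E / Λ ≤ d ^ (1 / 4 : ℝ) := by
    have : ((E / Λ) ^ 4 : ℝ) ^ (1 / 4 : ℝ) = E / Λ := by
      rw [← Real.rpow_natCast, ← Real.rpow_mul (by positivity)]
      norm_num
    rw [← this]
    exact Real.rpow_le_rpow (by positivity) hdge (by norm_num)
  have hg4 : g ^ (1 / 4 : ℝ) ≤ G := by
    refine le_trans ?_ hgG
    calc g ^ (1 / 4 : ℝ) ≤ g ^ (1 : ℝ) := Real.rpow_le_rpow_of_exponent_le hg1 (by norm_num)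
      _ = g := Real.rpow_one g
  have hs1 : Real.sqrt (N * ((W * Pa * Pe1 * Pe2 : ℝ) * (V * Λ) ^ 4)) ≤
      Λ ^ 4 * Real.sqrt (N * (RA * T ^ 2 * V ^ 4)) := by
    have h1 : Real.sqrt (N * ((W * Pa * Pe1 * Pe2 : ℝ) * (V * Λ) ^ 4)) ≤
        Real.sqrt ((Λ ^ 4) ^ 2 * (N * (RA * T ^ 2 * V ^ 4))) := by
      apply Real.sqrt_le_sqrt
      calc (N : ℝ) * ((W * Pa * Pe1 * Pe2 : ℝ) * (V * Λ) ^ 4) ≤
          N * ((Λ * (RA * Λ) * (T * Λ) * (T * Λ)) * (V * Λ) ^ 4) := by gcongr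
        _ = (Λ ^ 4) ^ 2 * (N * (RA * T ^ 2 * V ^ 4)) := by ring
    rw [Real.sqrt_mul (by positivity : (0 : ℝ) ≤ (Λ ^ 4) ^ 2), Real.sqrt_sq (by positivity)] at h1
    exact h1
  have hN0 : (0 : ℝ) ≤ N := Nat.cast_nonneg N
  have hs2 : Real.sqrt N * (d ^ (1 / 4 : ℝ) + Real.sqrt N / d ^ (1 / 4 : ℝ)) ≤
      Λ * (Real.sqrt N * E + N / E) := by
    have h1 : Real.sqrt N / d ^ (1 / 4 : ℝ) ≤ Real.sqrt N / (E / Λ) :=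
      div_le_div_of_nonneg_left (Real.sqrt_nonneg _) (by positivity) hd2
    have h2 : Real.sqrt N * (d ^ (1 / 4 : ℝ) + Real.sqrt N / d ^ (1 / 4 : ℝ)) ≤
        Real.sqrt N * (E * Λ + Real.sqrt N / (E / Λ)) :=
      mul_le_mul_of_nonneg_left (add_le_add hd1 h1) (Real.sqrt_nonneg _)
    refine h2.trans (le_of_eq ?_)
    have h3 : Real.sqrt N * Real.sqrt N = N := Real.mul_self_sqrt hN0
    have h4 : Real.sqrt N * (Real.sqrt N / (E / Λ)) = Λ * (N / E) := by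
      rw [← mul_div_assoc, h3]
      field_simp
    rw [mul_add, h4]
    ring
  have hT0 : 0 ≤ Real.sqrt N * (d ^ (1 / 4 : ℝ) + Real.sqrt N / d ^ (1 / 4 : ℝ)) := by positivity
  have hΛ3 : Λ ≤ Λ ^ 4 := by
    calc Λ = Λ ^ 1 := (pow_one _).symm
      _ ≤ Λ ^ 4 := pow_le_pow_right₀ hΛ (by norm_num)
  have hR0 : 0 ≤ Real.sqrt N * E + N / E := by positivity
  have hG0 : 0 ≤ G := by linarith
  calc Real.sqrt (N * ((W * Pa * Pe1 * Pe2 : ℝ) * (V * Λ) ^ 4)) +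
        g ^ (1 / 4 : ℝ) * (Real.sqrt N * (d ^ (1 / 4 : ℝ) + Real.sqrt N / d ^ (1 / 4 : ℝ)))
      ≤ Λ ^ 4 * Real.sqrt (N * (RA * T ^ 2 * V ^ 4)) * G + G * (Λ ^ 4 * (Real.sqrt N * E + N / E)) := by
        apply add_le_add
        · refine hs1.trans ?_
          exact le_mul_of_one_le_right (by positivity) hG1
        · exact mul_le_mul hg4 (hs2.trans (mul_le_mul_of_nonneg_right hΛ3 hR0)) hT0 hG0
    _ = Λ ^ 4 * B * G := by rw [hB]; ring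

/-- the radicand of the bound for fixed outer variables -/
noncomputable def FF {K : ℕ} (N W : ℕ) (G : Finset (Fin K)) (V1 : ℝ) (SV : Finset (Fin K → ℕ)) (i : ℕ)
    (o : (Fin K → ℕ) × (Fin K → ℕ) × (Fin K → ℕ) × (Fin K → ℕ)) : ℝ :=
  N * (N * (((Ix i SV ×ˢ Ix i SV).filter (fun p => Dt p.1 p.2 = 0)).card : ℝ) +
        ∑ p ∈ (Ix i SV ×ˢ Ix i SV).filter (fun p => Dt p.1 p.2 ≠ 0),
          Bd N ((W * Pr o.1 * Pr (rs G o.2.2.1) * Pr (rs G o.2.2.2) : ℝ) * V1 ^ 4)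
            ((Pr o.2.1 * Pr (rs Gᶜ o.2.2.1) * Pr (rs Gᶜ o.2.2.2) : ℕ) : ℝ)
            (Int.gcd (Dt p.1 p.2) ((Pr o.2.1 * Pr (rs Gᶜ o.2.2.1) * Pr (rs Gᶜ o.2.2.2) : ℕ) : ℤ)))

lemma FF_nonneg {K : ℕ} (N W : ℕ) (G : Finset (Fin K)) (V1 : ℝ) (SV : Finset (Fin K → ℕ)) (i : ℕ)
    (o : (Fin K → ℕ) × (Fin K → ℕ) × (Fin K → ℕ) × (Fin K → ℕ)) : 0 ≤ FF N W G V1 SV i o := by
  unfold FF
  apply mul_nonneg (Nat.cast_nonneg _)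
  apply add_nonneg (by positivity)
  exact Finset.sum_nonneg fun p _ => Bd_nonneg _ _ _ _ (Nat.cast_nonneg _) (Nat.cast_nonneg _)

/-- the sum over the outer variables of the square roots -/
lemma sum_sqrt_FF {K : ℕ} (N W : ℕ) (G : Finset (Fin K)) (Λ RA RB T U V E B Q Z P : ℝ)
    (SA SB SU SV : Finset (Fin K → ℕ)) (i : ℕ)
    (hΛ : 1 ≤ Λ) (hRA : 0 < RA) (hRB : 0 < RB) (hT : 0 < T) (hU : 0 < U) (hV : 0 < V) (hE : 0 < E)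
    (hE4 : E ^ 4 = RB * U ^ 2)
    (hW : (W : ℝ) ≤ Λ)
    (hPa : ∀ a ∈ SA, (Pr a : ℝ) ≤ RA * Λ)
    (hPr : ∀ r ∈ SB, (Pr r : ℝ) ≤ RB * Λ) (hPr2 : ∀ r ∈ SB, RB / Λ ≤ Pr r)
    (hPe : ∀ u ∈ SU, (Pr (rs G u) : ℝ) ≤ T * Λ)
    (hPu : ∀ u ∈ SU, (Pr (rs Gᶜ u) : ℝ) ≤ U * Λ) (hPu2 : ∀ u ∈ SU, U / Λ ≤ Pr (rs Gᶜ u))
    (hB : B = Real.sqrt (N * (RA * T ^ 2 * V ^ 4)) + Real.sqrt N * E + N / E)
    (hZ : (((Ix i SV ×ˢ Ix i SV).filter (fun p => Dt p.1 p.2 = 0)).card : ℝ) ≤ Z)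
    (hP : (((Ix i SV ×ˢ Ix i SV).filter (fun p => Dt p.1 p.2 ≠ 0)).card : ℝ) ≤ P)
    (hQ0 : 0 ≤ Q)
    (hQ : ∀ D : ℕ, D ≠ 0 → (D = 1 ∨ ∃ p ∈ Ix i SV ×ˢ Ix i SV, D = (Dt p.1 p.2).natAbs) →
      ∑ o ∈ OO SA SB SU, g3 G D o ≤ Q) :
    ∑ o ∈ OO SA SB SU, Real.sqrt (FF N W G (V * Λ) SV i o) ≤
      Q * Real.sqrt (N * (N * Z + P * (Λ ^ 4 * B))) := by
  have hΛ0 : 0 < Λ := by linarith
  have hB0 : 0 ≤ B := by rw [hB]; positivity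
  have hN0 : (0 : ℝ) ≤ N := Nat.cast_nonneg N
  have hZ0 : 0 ≤ Z := le_trans (Nat.cast_nonneg _) hZ
  have hP0 : 0 ≤ P := le_trans (Nat.cast_nonneg _) hP
  have hcard : ((OO SA SB SU).card : ℝ) ≤ Q := by
    refine le_trans ?_ (hQ 1 one_ne_zero (Or.inl rfl))
    have : ((OO SA SB SU).card : ℝ) = ∑ o ∈ OO SA SB SU, (1 : ℝ) := by simp
    rw [this]
    exact Finset.sum_le_sum fun o _ => g3_ge_one G 1 one_ne_zero o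
  refine sum_sqrt_le _ _ (fun o _ => FF_nonneg _ _ _ _ _ _ _) Q _ hQ0 (by positivity) hcard ?_
  unfold FF
  rw [← Finset.mul_sum, Finset.sum_add_distrib, Finset.sum_const, nsmul_eq_mul, Finset.sum_comm]
  have h1 : ∀ p ∈ (Ix i SV ×ˢ Ix i SV).filter (fun p => Dt p.1 p.2 ≠ 0),
      ∑ o ∈ OO SA SB SU, Bd N ((W * Pr o.1 * Pr (rs G o.2.2.1) * Pr (rs G o.2.2.2) : ℝ) * (V * Λ) ^ 4)
            ((Pr o.2.1 * Pr (rs Gᶜ o.2.2.1) * Pr (rs Gᶜ o.2.2.2) : ℕ) : ℝ)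
            (Int.gcd (Dt p.1 p.2) ((Pr o.2.1 * Pr (rs Gᶜ o.2.2.1) * Pr (rs Gᶜ o.2.2.2) : ℕ) : ℤ)) ≤
            Λ ^ 4 * B * Q := by
    intro p hp
    rw [Finset.mem_filter] at hp
    have hD0 : (Dt p.1 p.2).natAbs ≠ 0 := Int.natAbs_ne_zero.2 hp.2
    have h2 : ∀ o ∈ OO SA SB SU,
        Bd N ((W * Pr o.1 * Pr (rs G o.2.2.1) * Pr (rs G o.2.2.2) : ℝ) * (V * Λ) ^ 4)
            ((Pr o.2.1 * Pr (rs Gᶜ o.2.2.1) * Pr (rs Gᶜ o.2.2.2) : ℕ) : ℝ)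
            (Int.gcd (Dt p.1 p.2) ((Pr o.2.1 * Pr (rs Gᶜ o.2.2.1) * Pr (rs Gᶜ o.2.2.2) : ℕ) : ℤ)) ≤
        Λ ^ 4 * B * g3 G (Dt p.1 p.2).natAbs o := by
      intro o ho
      unfold OO at ho
      rw [Finset.mem_product, Finset.mem_product, Finset.mem_product] at ho
      obtain ⟨ha, hr, hu1, hu2⟩ := ho
      exact Bd_le N Λ RA RB T U V E B W (Pr o.1) (Pr (rs G o.2.2.1)) (Pr (rs G o.2.2.2)) (Pr o.2.1)
        (Pr (rs Gᶜ o.2.2.1)) (Pr (rs Gᶜ o.2.2.2)) _ (Dt p.1 p.2) rfl hD0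
        hΛ hRA hRB hT hU hV hE hE4 hW (hPa _ ha) (hPe _ hu1) (hPe _ hu2) (hPr _ hr) (hPr2 _ hr)
        (hPu _ hu1) (hPu2 _ hu1) (hPu _ hu2) (hPu2 _ hu2) hB
    refine (Finset.sum_le_sum h2).trans ?_
    rw [← Finset.mul_sum]
    exact mul_le_mul_of_nonneg_left (hQ _ hD0 (Or.inr ⟨p, hp.1, rfl⟩)) (by positivity)
  have h3 := Finset.sum_le_sum h1
  rw [Finset.sum_const, nsmul_eq_mul] at h3
  have h4 : ((((Ix i SV ×ˢ Ix i SV).filter (fun p => Dt p.1 p.2 ≠ 0)).card : ℕ) : ℝ) * (Λ ^ 4 * B * Q) ≤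
      P * (Λ ^ 4 * B * Q) := mul_le_mul_of_nonneg_right hP (by positivity)
  have h5 : ((OO SA SB SU).card : ℝ) *
      (N * (((Ix i SV ×ˢ Ix i SV).filter (fun p => Dt p.1 p.2 = 0)).card : ℝ)) ≤ Q * (N * Z) :=
    mul_le_mul hcard (mul_le_mul_of_nonneg_left hZ hN0) (by positivity) hQ0
  calc (N : ℝ) * (_ + _) ≤ N * (Q * (N * Z) + P * (Λ ^ 4 * B * Q)) :=
        mul_le_mul_of_nonneg_left (add_le_add h5 (h3.trans h4)) hN0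
    _ = Q * (N * (N * Z + P * (Λ ^ 4 * B))) := by ring

/-- the final inequality -/
lemma fin_ineq (M N RA RB T U V E B H Λ q0 : ℝ) (hM : 0 < M) (hN : 0 < N) (hRA : 0 < RA) (hRB : 0 < RB)
    (hT : 0 < T) (hU : 0 < U) (hV : 0 < V) (hE : 0 < E) (hE4 : E ^ 4 = RB * U ^ 2) (hΛ : 4 ≤ Λ)
    (hB : B = Real.sqrt (N * (RA * T ^ 2 * V ^ 4)) + Real.sqrt N * E + N / E)
    (hH1 : 1 ≤ H) (hH : RA * RB * T ^ 2 * U ^ 2 * V ^ 2 / M ≤ H)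
    (hq : q0 = RA * RB * T ^ 2 * U ^ 2 * V ^ 2 / Λ ^ 8)
    (s2 : RA * RB * T ^ 2 * U ^ 2 * Λ ^ 1000 ≤ M)
    (s3 : RA * T ^ 2 * V ^ 4 * H ^ 4 * Λ ^ 1000 ≤ N)
    (s4 : RB * U ^ 2 * H ^ 8 * Λ ^ 1000 ≤ N ^ 2)
    (s5 : H ^ 8 * Λ ^ 1000 ≤ RB * U ^ 2) :
    Λ ^ 25 * (N * (T ^ 2 * U ^ 2)) * Real.sqrt ((M / q0) * (N ^ 2 * V ^ 2 * Λ ^ 7) + N * V ^ 4 * Λ ^ 16 * B) ≤
      M * N ^ 2 / (RA * RB) := by
  have hΛ0 : 0 < Λ := by linarith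
  have hΛ1 : 1 ≤ Λ := by linarith
  have hH0 : 0 < H := by linarith
  have hB0 : 0 ≤ B := by rw [hB]; positivity
  have hle : ∀ {m n : ℕ}, m ≤ n → Λ ^ m ≤ Λ ^ n := fun h => pow_le_pow_right₀ hΛ1 h
  -- the three parts of B
  have ha : Real.sqrt (N * (RA * T ^ 2 * V ^ 4)) * (H ^ 2 * Λ ^ 100) ≤ N := by
    have h1 : (Real.sqrt (N * (RA * T ^ 2 * V ^ 4)) * (H ^ 2 * Λ ^ 100)) ^ 2 ≤ N ^ 2 := by
      rw [mul_pow, Real.sq_sqrt (by positivity)]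
      calc N * (RA * T ^ 2 * V ^ 4) * (H ^ 2 * Λ ^ 100) ^ 2 = N * (RA * T ^ 2 * V ^ 4 * H ^ 4 * Λ ^ 200) := by ring
        _ ≤ N * (RA * T ^ 2 * V ^ 4 * H ^ 4 * Λ ^ 1000) := by
            have := hle (show 200 ≤ 1000 by norm_num)
            gcongr
        _ ≤ N * N := by gcongr
        _ = N ^ 2 := by ring
    exact le_of_sq h1 hN.le
  have hb : Real.sqrt N * E * (H ^ 2 * Λ ^ 100) ≤ N := by
    have h1 : E * (H ^ 2 * Λ ^ 100) ≤ Real.sqrt N := by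
      apply pow4_le (by positivity) (Real.sqrt_nonneg _)
      have h2 : Real.sqrt N ^ 4 = N ^ 2 := by
        rw [show (4 : ℕ) = 2 * 2 by norm_num, pow_mul, Real.sq_sqrt hN.le]
      rw [h2]
      calc (E * (H ^ 2 * Λ ^ 100)) ^ 4 = E ^ 4 * H ^ 8 * Λ ^ 400 := by ring
        _ = RB * U ^ 2 * H ^ 8 * Λ ^ 400 := by rw [hE4]
        _ ≤ RB * U ^ 2 * H ^ 8 * Λ ^ 1000 := by
            have := hle (show 400 ≤ 1000 by norm_num)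
            gcongr
        _ ≤ N ^ 2 := s4
    calc Real.sqrt N * E * (H ^ 2 * Λ ^ 100) = Real.sqrt N * (E * (H ^ 2 * Λ ^ 100)) := by ring
      _ ≤ Real.sqrt N * Real.sqrt N := mul_le_mul_of_nonneg_left h1 (Real.sqrt_nonneg _)
      _ = N := Real.mul_self_sqrt hN.le
  have hc : N / E * (H ^ 2 * Λ ^ 100) ≤ N := by
    have h1 : H ^ 2 * Λ ^ 100 ≤ E := by
      apply pow4_le (by positivity) hE.le
      calc (H ^ 2 * Λ ^ 100) ^ 4 = H ^ 8 * Λ ^ 400 := by ring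
        _ ≤ H ^ 8 * Λ ^ 1000 := by
            have := hle (show 400 ≤ 1000 by norm_num)
            gcongr
        _ ≤ E ^ 4 := by rw [hE4]; exact s5
    calc N / E * (H ^ 2 * Λ ^ 100) ≤ N / E * E := by gcongr
      _ = N := by field_simp
  have hBH : B * (H ^ 2 * Λ ^ 100) ≤ 3 * N := by
    rw [hB, add_mul, add_mul]
    linarith
  -- part one
  have hM2 : 0 < M / (RA * RB) := by positivity
  have p1 : Λ ^ 50 * (T ^ 2 * U ^ 2) ^ 2 * ((M / q0) * (N ^ 2 * V ^ 2 * Λ ^ 7)) ≤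
      1 / 2 * (M * N / (RA * RB)) ^ 2 := by
    rw [hq]
    have h1 : Λ ^ 50 * (T ^ 2 * U ^ 2) ^ 2 *
        ((M / (RA * RB * T ^ 2 * U ^ 2 * V ^ 2 / Λ ^ 8)) * (N ^ 2 * V ^ 2 * Λ ^ 7)) =
        (M * N ^ 2 / (RA * RB) ^ 2) * (RA * RB * T ^ 2 * U ^ 2 * Λ ^ 65) := by
      field_simp
    rw [h1]
    have h2 : RA * RB * T ^ 2 * U ^ 2 * Λ ^ 65 ≤ 1 / 2 * M := by
      have h3 : Λ ^ 1000 = Λ ^ 65 * Λ ^ 935 := by rw [← pow_add]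
      have h4 : (2 : ℝ) ≤ Λ ^ 935 := by
        calc (2 : ℝ) ≤ Λ ^ 1 := by rw [pow_one]; linarith
          _ ≤ Λ ^ 935 := hle (by norm_num)
      have h5 : RA * RB * T ^ 2 * U ^ 2 * Λ ^ 65 * 2 ≤ RA * RB * T ^ 2 * U ^ 2 * Λ ^ 1000 := by
        rw [h3, ← mul_assoc]
        gcongr
      linarith
    calc (M * N ^ 2 / (RA * RB) ^ 2) * (RA * RB * T ^ 2 * U ^ 2 * Λ ^ 65) ≤
        (M * N ^ 2 / (RA * RB) ^ 2) * (1 / 2 * M) := by gcongr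
      _ = 1 / 2 * (M * N / (RA * RB)) ^ 2 := by rw [div_pow]; ring
  have p2 : Λ ^ 50 * (T ^ 2 * U ^ 2) ^ 2 * (N * V ^ 4 * Λ ^ 16 * B) ≤ 1 / 2 * (M * N / (RA * RB)) ^ 2 := by
    have h1 : (T ^ 2 * U ^ 2) * V ^ 2 ≤ H * (M / (RA * RB)) := by
      rw [div_le_iff₀ hM] at hH
      rw [mul_div_assoc', le_div_iff₀ (by positivity)]
      linarith
    have h2 : (T ^ 2 * U ^ 2) ^ 2 * V ^ 4 ≤ H ^ 2 * (M / (RA * RB)) ^ 2 := by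
      calc (T ^ 2 * U ^ 2) ^ 2 * V ^ 4 = ((T ^ 2 * U ^ 2) * V ^ 2) ^ 2 := by ring
        _ ≤ (H * (M / (RA * RB))) ^ 2 := by gcongr
        _ = _ := by ring
    have h3 : Λ ^ 66 * (B * H ^ 2) ≤ 1 / 2 * N := by
      have h4 : Λ ^ 100 = Λ ^ 66 * Λ ^ 34 := by rw [← pow_add]
      have h5 : (6 : ℝ) ≤ Λ ^ 34 := by
        calc (6 : ℝ) ≤ Λ ^ 2 := by nlinarith
          _ ≤ Λ ^ 34 := hle (by norm_num)
      have h57 : 0 ≤ Λ ^ 66 := by positivity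
      have h6 : Λ ^ 66 * (B * H ^ 2) * 6 ≤ B * (H ^ 2 * Λ ^ 100) := by
        rw [h4]
        generalize Λ ^ 66 = x at *
        generalize Λ ^ 34 = y at *
        calc x * (B * H ^ 2) * 6 ≤ x * (B * H ^ 2) * y :=
              mul_le_mul_of_nonneg_left h5 (by positivity)
          _ = B * (H ^ 2 * (x * y)) := by ring
      linarith
    calc Λ ^ 50 * (T ^ 2 * U ^ 2) ^ 2 * (N * V ^ 4 * Λ ^ 16 * B) =
          ((T ^ 2 * U ^ 2) ^ 2 * V ^ 4) * (N * (Λ ^ 66 * B)) := by ring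
      _ ≤ (H ^ 2 * (M / (RA * RB)) ^ 2) * (N * (Λ ^ 66 * B)) := by gcongr
      _ = (M / (RA * RB)) ^ 2 * N * (Λ ^ 66 * (B * H ^ 2)) := by ring
      _ ≤ (M / (RA * RB)) ^ 2 * N * (1 / 2 * N) := by gcongr
      _ = 1 / 2 * (M * N / (RA * RB)) ^ 2 := by rw [div_pow, div_pow]; ring
  set Y : ℝ := (M / q0) * (N ^ 2 * V ^ 2 * Λ ^ 7) + N * V ^ 4 * Λ ^ 16 * B with hY
  have hq0 : 0 < q0 := by rw [hq]; positivity
  have hY0 : 0 ≤ Y := by rw [hY]; positivity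
  have h7 : (Λ ^ 25 * (T ^ 2 * U ^ 2) * Real.sqrt Y) ^ 2 ≤ (M * N / (RA * RB)) ^ 2 := by
    rw [mul_pow, Real.sq_sqrt hY0]
    calc (Λ ^ 25 * (T ^ 2 * U ^ 2)) ^ 2 * Y =
          Λ ^ 50 * (T ^ 2 * U ^ 2) ^ 2 * ((M / q0) * (N ^ 2 * V ^ 2 * Λ ^ 7)) +
          Λ ^ 50 * (T ^ 2 * U ^ 2) ^ 2 * (N * V ^ 4 * Λ ^ 16 * B) := by rw [hY]; ring
      _ ≤ 1 / 2 * (M * N / (RA * RB)) ^ 2 + 1 / 2 * (M * N / (RA * RB)) ^ 2 := add_le_add p1 p2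
      _ = _ := by ring
  have h8 : Λ ^ 25 * (T ^ 2 * U ^ 2) * Real.sqrt Y ≤ M * N / (RA * RB) :=
    le_of_sq h7 (by positivity)
  calc Λ ^ 25 * (N * (T ^ 2 * U ^ 2)) * Real.sqrt Y = N * (Λ ^ 25 * (T ^ 2 * U ^ 2) * Real.sqrt Y) := by ring
    _ ≤ N * (M * N / (RA * RB)) := by gcongr
    _ = M * N ^ 2 / (RA * RB) := by ring

/-- the bound of one dyadic range of frequencies -/
lemma wt_le (M N V Λ B q0 : ℝ) (i : ℕ) (hM : 0 ≤ M) (hN : 0 ≤ N) (hV : 0 ≤ V) (hΛ : 4 ≤ Λ) (hB : 0 ≤ B)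
    (hq0 : 0 < q0) :
    min (M / q0) (1 / (2 : ℝ) ^ i) * Real.sqrt (N * (N * (2 ^ (i + 2) * (V * Λ ^ 2) ^ 2 * Λ) +
      (2 ^ (i + 2) * (V * Λ ^ 2) ^ 2) ^ 2 * (Λ ^ 4 * B))) ≤
    Real.sqrt ((M / q0) * (N ^ 2 * V ^ 2 * Λ ^ 7) + N * V ^ 4 * Λ ^ 16 * B) := by
  set w := min (M / q0) (1 / (2 : ℝ) ^ i) with hw
  have hw0 : 0 ≤ w := by rw [hw]; exact le_min (by positivity) (by positivity)
  have h1 : w ≤ M / q0 := min_le_left _ _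
  have h2 : w ≤ 1 / (2 : ℝ) ^ i := min_le_right _ _
  have h2' : w * 2 ^ i ≤ 1 := by
    rw [le_div_iff₀ (by positivity)] at h2
    exact h2
  have hx : (0 : ℝ) < 2 ^ i := by positivity
  have h3 : w * (w * 2 ^ i) ≤ M / q0 := by
    calc w * (w * 2 ^ i) ≤ w * 1 := mul_le_mul_of_nonneg_left h2' hw0
      _ ≤ M / q0 := by linarith
  have h4 : (w * 2 ^ i) ^ 2 ≤ 1 := by
    calc (w * 2 ^ i) ^ 2 ≤ 1 ^ 2 := pow_le_pow_left₀ (by positivity) h2' 2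
      _ = 1 := by norm_num
  have hΛ0 : 0 < Λ := by linarith
  have e2 : (4 : ℝ) ≤ Λ ^ 2 := by nlinarith
  have e4 : (16 : ℝ) ≤ Λ ^ 4 := by
    calc (16 : ℝ) = 4 * 4 := by norm_num
      _ ≤ Λ ^ 2 * Λ ^ 2 := mul_le_mul e2 e2 (by norm_num) (by positivity)
      _ = Λ ^ 4 := by ring
  apply Real.le_sqrt_of_sq_le
  rw [mul_pow, Real.sq_sqrt (by positivity)]
  have p1 : w ^ 2 * (N * (N * (2 ^ (i + 2) * (V * Λ ^ 2) ^ 2 * Λ))) ≤ (M / q0) * (N ^ 2 * V ^ 2 * Λ ^ 7) := by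
    calc w ^ 2 * (N * (N * (2 ^ (i + 2) * (V * Λ ^ 2) ^ 2 * Λ)))
        = (w * (w * 2 ^ i)) * (N ^ 2 * V ^ 2 * Λ ^ 5 * 4) := by ring
      _ ≤ (M / q0) * (N ^ 2 * V ^ 2 * Λ ^ 5 * Λ ^ 2) := by gcongr
      _ = _ := by ring
  have p2 : w ^ 2 * (N * ((2 ^ (i + 2) * (V * Λ ^ 2) ^ 2) ^ 2 * (Λ ^ 4 * B))) ≤ N * V ^ 4 * Λ ^ 16 * B := by
    calc w ^ 2 * (N * ((2 ^ (i + 2) * (V * Λ ^ 2) ^ 2) ^ 2 * (Λ ^ 4 * B)))
        = (w * 2 ^ i) ^ 2 * (N * V ^ 4 * Λ ^ 12 * B * 16) := by ring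
      _ ≤ 1 * (N * V ^ 4 * Λ ^ 12 * B * Λ ^ 4) := by gcongr
      _ = _ := by ring
  calc w ^ 2 * (N * (N * (2 ^ (i + 2) * (V * Λ ^ 2) ^ 2 * Λ) + (2 ^ (i + 2) * (V * Λ ^ 2) ^ 2) ^ 2 * (Λ ^ 4 * B)))
      = w ^ 2 * (N * (N * (2 ^ (i + 2) * (V * Λ ^ 2) ^ 2 * Λ))) +
        w ^ 2 * (N * ((2 ^ (i + 2) * (V * Λ ^ 2) ^ 2) ^ 2 * (Λ ^ 4 * B))) := by ring
    _ ≤ _ := add_le_add p1 p2

end Pool.Agent.Y826.ZL.Y814
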