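import Mathlib
import Pool.Agent.Y826.ZL.Y814.OC6
import Pool.Agent.H510R2.Div

/-! Project Y826/Z, job OB5: `S_OFF` from `S_OA`, five groups. -/

open Finset Filter

namespace Pool.Agent.Y826.ZL.Y814

open Pool.Agent.Y826.Z Pool.Agent.Y826.Z.OB Pool.Agent.Y826.ZL.OB

lemma ev_log (ε : ℝ) (hε : 0 < ε) : ∀ᶠ X : ℝ in atTop, ((Nat.log 2 ⌊X ^ 3⌋₊ + 2 : ℕ) : ℝ) ≤ X ^ ε := by
  have h1 := (isLittleO_log_rpow_atTop hε).bound (show (0 : ℝ) < 1 / 100 by norm_num)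
  have h2 := (tendsto_rpow_atTop hε).eventually_ge_atTop 4
  filter_upwards [h1, h2, eventually_ge_atTop 256] with X h1 h2 h3
  have hX0 : 0 < X := by linarith
  have hX3 : (1 : ℝ) ≤ X ^ 3 := one_le_pow₀ (by linarith)
  have hlog : 0 ≤ Real.log X := Real.log_nonneg (by linarith)
  rw [Real.norm_of_nonneg hlog, Real.norm_of_nonneg (by positivity)] at h1
  have h4 : ((Nat.log 2 ⌊X ^ 3⌋₊ : ℕ) : ℝ) ≤ Real.logb 2 (⌊X ^ 3⌋₊ : ℝ) := by
    have h4' := Real.natLog_le_logb ⌊X ^ (3 : ℕ)⌋₊ 2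
    push_cast at h4'
    exact h4'
  have hm : (1 : ℝ) ≤ (⌊X ^ 3⌋₊ : ℝ) := by
    have : 1 ≤ ⌊X ^ 3⌋₊ := Nat.le_floor (by simpa using hX3)
    exact_mod_cast this
  have h5 : Real.logb 2 (⌊X ^ 3⌋₊ : ℝ) ≤ Real.logb 2 (X ^ 3) :=
    Real.logb_le_logb_of_le (by norm_num) (by linarith) (Nat.floor_le (by linarith))
  have h6 : Real.logb 2 (X ^ 3) = 3 * Real.log X / Real.log 2 := by
    unfold Real.logb
    rw [Real.log_pow]
    push_cast
    rfl
  have h7 : (1 / 2 : ℝ) ≤ Real.log 2 := by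
    have := Real.log_two_gt_d9
    linarith
  have h8 : 3 * Real.log X / Real.log 2 ≤ 6 * Real.log X := by
    rw [div_le_iff₀ (by linarith)]
    nlinarith
  push_cast
  rw [h6] at h5
  linarith

lemma ev_tau (k : ℕ) (ε : ℝ) (hε : 0 < ε) : ∀ᶠ X : ℝ in atTop, ∀ n : ℕ, n ≠ 0 → (n : ℝ) ≤ X ^ 10 →
    tau n ^ (k + 1) ≤ X ^ ε := by
  set η : ℝ := ε / (20 * (k + 1)) with hη
  have hη0 : 0 < η := by positivity
  obtain ⟨C, hC0, hC⟩ := Pool.Agent.H510R2.divisor_bound η hη0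
  have h2 := (tendsto_rpow_atTop (show 0 < ε / 2 by positivity)).eventually_ge_atTop (C ^ (k + 1))
  filter_upwards [h2, eventually_ge_atTop 1] with X h2 h3 n hn hnX
  have hX0 : 0 < X := by linarith
  have h4 : tau n ≤ C * X ^ (10 * η) := by
    unfold tau
    refine (hC n (Nat.one_le_iff_ne_zero.2 hn)).trans ?_
    apply mul_le_mul_of_nonneg_left _ hC0.le
    calc (n : ℝ) ^ η ≤ (X ^ 10) ^ η := Real.rpow_le_rpow (Nat.cast_nonneg _) hnX hη0.le
      _ = X ^ (10 * η) := by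
        rw [← Real.rpow_natCast, ← Real.rpow_mul hX0.le]
        norm_num
  calc tau n ^ (k + 1) ≤ (C * X ^ (10 * η)) ^ (k + 1) := pow_le_pow_left₀ (tau_nonneg n) h4 _
    _ = C ^ (k + 1) * X ^ (ε / 2) := by
        rw [mul_pow, ← Real.rpow_natCast (X ^ (10 * η)), ← Real.rpow_mul hX0.le]
        congr 2
        rw [hη]
        push_cast
        field_simp
        norm_num
    _ ≤ X ^ (ε / 2) * X ^ (ε / 2) := mul_le_mul_of_nonneg_right h2 (by positivity)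
    _ = X ^ ε := by
        rw [← Real.rpow_add hX0]
        congr 1
        ring

theorem off (hA : S_OA) : S_OFF := by
  intro K h W b hyp δ hδ
  set δ' : ℝ := min δ 1 with hδ'
  have hd1 : δ' ≤ 1 := min_le_right _ _
  have hd2 : δ' ≤ δ := min_le_left _ _
  have hd0 : 0 < δ' := lt_min hδ one_pos
  set ε : ℝ := δ' / 1000 with hεdef
  have hε : 0 < ε := by positivity
  have hε1 : 2 * ε ≤ 1 := by rw [hεdef]; linarith
  obtain ⟨C, hC1, hOA⟩ := hA K h W b hyp (ε / 3) (by positivity)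
  refine ⟨ε, hε, ?_⟩
  filter_upwards [eventually_ge_atTop 256, (tendsto_rpow_atTop hε).eventually_ge_atTop 4,
    (tendsto_rpow_atTop hε).eventually_ge_atTop (W : ℝ), (tendsto_rpow_atTop hε).eventually_ge_atTop C,
    ev_log ε hε, ev_tau (2 * K) ε hε] with X h256 hΛ4 hWΛ hCΛ hI hτ
  intro M N RA RB T U V hS G SA SB SU SV th c hF β hβ
  have hX0 : 0 < X := by linarith
  have hX1 : 1 ≤ X := by linarith
  set Λ : ℝ := X ^ ε with hΛdef
  have hΛ0 : 0 < Λ := by linarith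
  have hinv : X ^ (-ε) = Λ⁻¹ := by rw [Real.rpow_neg hX0.le]
  have hΛ1000 : Λ ^ 1000 = X ^ δ' := by
    rw [hΛdef, ← Real.rpow_natCast, ← Real.rpow_mul hX0.le]
    congr 1
    rw [hεdef]
    push_cast
    ring
  have hΛX : Λ ^ 2 ≤ X := by
    rw [hΛdef, ← Real.rpow_natCast, ← Real.rpow_mul hX0.le]
    calc X ^ (ε * ((2 : ℕ) : ℝ)) ≤ X ^ (1 : ℝ) :=
          Real.rpow_le_rpow_of_exponent_le hX1 (by push_cast; linarith)
      _ = X := Real.rpow_one X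
  have hdle : Λ ^ 1000 ≤ X ^ δ := by
    rw [hΛ1000]
    exact Real.rpow_le_rpow_of_exponent_le hX1 hd2
  have hXd : 0 < X ^ δ := by positivity
  have hdn : X ^ (-δ) * Λ ^ 1000 ≤ 1 := by
    rw [Real.rpow_neg hX0.le, inv_mul_le_iff₀ hXd, mul_one]
    exact hdle
  have hMN0 : 0 < (M : ℝ) * N := lt_of_lt_of_le (by positivity) hS.mn1
  have hM : 0 < M := by
    rcases Nat.eq_zero_or_pos M with h0 | h0
    · rw [h0] at hMN0; simp at hMN0
    · exact h0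
  have hN : 0 < N := by
    rcases Nat.eq_zero_or_pos N with h0 | h0
    · rw [h0] at hMN0; simp at hMN0
    · exact h0
  have hM1 : (1 : ℝ) ≤ M := by exact_mod_cast hM
  have hN1 : (1 : ℝ) ≤ N := by exact_mod_cast hN
  have hX3 : 16 * X ≤ X ^ 3 := by nlinarith [mul_pos hX0 hX0]
  have hNX : (N : ℝ) ≤ X ^ 3 := by nlinarith [hS.mn2]
  have hMX : (M : ℝ) ≤ X ^ 3 := by nlinarith [hS.mn2]
  have hΛ1000pos : 0 ≤ Λ ^ 1000 := by positivity
  have tr : ∀ {x y : ℝ}, 0 ≤ y → x ≤ y * X ^ (-δ) → x * Λ ^ 1000 ≤ y := by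
    intro x y hy hxy
    calc x * Λ ^ 1000 ≤ (y * X ^ (-δ)) * Λ ^ 1000 := mul_le_mul_of_nonneg_right hxy hΛ1000pos
      _ = y * (X ^ (-δ) * Λ ^ 1000) := by ring
      _ ≤ y * 1 := mul_le_mul_of_nonneg_left hdn hy
      _ = y := mul_one y
  set H : ℝ := max 1 (RA * RB * T ^ 2 * U ^ 2 * V ^ 2 / M) with hH
  have hRA := hS.ra
  have hRB := hS.rb
  have hT := hS.e
  have hU := hS.u
  have hV := hS.v
  have mul1 : ∀ R : ℝ, R * X ^ (-ε) = R / Λ := fun R => by rw [hinv]; rfl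
  have hres := main_det h W b M N G SA SB SU SV th c β Λ X C RA RB T U V H h256 hΛ4 hΛX hyp.wpos hWΛ hC1 hCΛ hI
    hτ hS.mn2 hM hN hRA hRB hT hU hV (le_max_left _ _) (le_max_right _ _)
    (tr (Nat.cast_nonneg _) hS.c1) (tr (Nat.cast_nonneg _) hS.c2) (tr (Nat.cast_nonneg _) hS.c3)
    (tr (by positivity) hS.c4)
    ((mul_le_mul_of_nonneg_left hdle (by positivity)).trans hS.c5)
    hF.cb hF.cs
    (fun a ha => by
      rw [abs_of_nonneg (by linarith [hF.th1 a ha])]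
      exact hF.th2 a ha)
    hF.sa2 (fun a ha => by rw [← mul1]; exact hF.sa1 a ha)
    hF.sb2 (fun a ha => by rw [← mul1]; exact hF.sb1 a ha)
    hF.se2 (fun a ha => by rw [← mul1]; exact hF.se1 a ha)
    hF.su2 (fun a ha => by rw [← mul1]; exact hF.su1 a ha)
    hF.sv2 (fun a ha => by rw [← mul1]; exact hF.sv1 a ha)
    hβ
    (by
      intro a r u1 u2 e1 e2 l κ V1 q0 b0 g1 g2 g3 g4 g5 g6 g7
      have hgo := hOA (X ^ 3) M N a r u1 u2 e1 e2 l SV κ V1 q0 b0 β (one_le_pow₀ hX1) hN hNX hMX g1 g2 g3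
        g4 g5 g6 g7
      have he : (X ^ 3) ^ (ε / 3) = Λ := by
        rw [hΛdef, ← Real.rpow_natCast, ← Real.rpow_mul hX0.le]
        congr 1
        push_cast
        ring
      rw [he] at hgo
      exact hgo)
  rw [hinv]
  exact hres

end Pool.Agent.Y826.ZL.Y814
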